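import Pool.Agent.helper26.EC.SpecW

/-!
# ec:FN (MP_5628fe_nt): the count of the theorem
-/

set_option autoImplicit false

namespace Pool.Agent.EC

open Finset ArithmeticFunction
open Pool.Agent.CH (Win)

/-- the elementary facts about `log` which hold for large `N` -/
private lemma FN_ev (δ : ℝ) (hδ : 0 < δ) : ∃ N₀ : ℕ, ∀ N : ℕ, N₀ ≤ N →
    1 ≤ Real.log N ∧ Real.log (N + 1) ≤ 51 / 50 * Real.log N ∧
    Real.log N ^ 2 * (N : ℝ) ^ (39 / 20 : ℝ) ≤ δ * (N : ℝ) ^ 2 := by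
  have e1 : ∀ᶠ x : ℝ in Filter.atTop, ‖Real.log x‖ ≤ Real.sqrt δ * ‖x ^ (1 / 40 : ℝ)‖ :=
    (isLittleO_log_rpow_atTop (by norm_num : (0 : ℝ) < 1 / 40)).bound (Real.sqrt_pos.2 hδ)
  have e2 : ∀ᶠ x : ℝ in Filter.atTop, 1 ≤ Real.log x :=
    Real.tendsto_log_atTop.eventually_ge_atTop 1
  have e3 : ∀ᶠ x : ℝ in Filter.atTop, (100 : ℝ) ≤ x := Filter.eventually_ge_atTop 100
  obtain ⟨N₀, hN₀⟩ := Filter.eventually_atTop.1
    (tendsto_natCast_atTop_atTop.eventually (e1.and (e2.and e3)))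
  refine ⟨N₀, fun N hN => ?_⟩
  obtain ⟨a1, a2, a3⟩ := hN₀ N hN
  have hNpos : (0 : ℝ) < (N : ℝ) := by linarith
  refine ⟨a2, ?_, ?_⟩
  · have h1 : Real.log ((N : ℝ) + 1) = Real.log N + Real.log (1 + 1 / (N : ℝ)) := by
      rw [← Real.log_mul hNpos.ne' (by positivity)]
      congr 1
      field_simp
    have h2 : Real.log (1 + 1 / (N : ℝ)) ≤ 1 / (N : ℝ) := by
      have h3 := Real.log_le_sub_one_of_pos (by positivity : (0 : ℝ) < 1 + 1 / (N : ℝ))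
      linarith
    have h4 : 1 / (N : ℝ) ≤ 1 / 100 := one_div_le_one_div_of_le (by norm_num) a3
    rw [h1]
    linarith
  · rw [Real.norm_of_nonneg (by linarith : (0 : ℝ) ≤ Real.log N),
      Real.norm_of_nonneg (Real.rpow_nonneg hNpos.le _)] at a1
    have h1 : Real.log (N : ℝ) ^ 2 ≤ δ * (N : ℝ) ^ (1 / 20 : ℝ) := by
      have h2 : Real.log (N : ℝ) ^ 2 ≤ (Real.sqrt δ * (N : ℝ) ^ (1 / 40 : ℝ)) ^ 2 :=
        pow_le_pow_left₀ (by linarith) a1 2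
      have h3 : (Real.sqrt δ * (N : ℝ) ^ (1 / 40 : ℝ)) ^ 2 = δ * (N : ℝ) ^ (1 / 20 : ℝ) := by
        rw [mul_pow, Real.sq_sqrt hδ.le, ← Real.rpow_natCast ((N : ℝ) ^ (1 / 40 : ℝ)) 2,
          ← Real.rpow_mul hNpos.le]
        norm_num
      rw [h3] at h2
      exact h2
    have h4 : (N : ℝ) ^ (1 / 20 : ℝ) * (N : ℝ) ^ (39 / 20 : ℝ) = (N : ℝ) ^ 2 := by
      rw [← Real.rpow_add hNpos]
      norm_num
    calc Real.log (N : ℝ) ^ 2 * (N : ℝ) ^ (39 / 20 : ℝ)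
        ≤ (δ * (N : ℝ) ^ (1 / 20 : ℝ)) * (N : ℝ) ^ (39 / 20 : ℝ) :=
          mul_le_mul_of_nonneg_right h1 (Real.rpow_nonneg hNpos.le _)
      _ = δ * (N : ℝ) ^ 2 := by rw [mul_assoc, h4]

private lemma FN_adm {K K' Q : ℝ} {l : ℕ → ℝ} (hK : K ≤ K') (h : Adm K Q l) : Adm K' Q l :=
  ⟨fun m => (h.1 m).trans hK, h.2⟩

/-- the inequality of the assembly, `L = log N`, `L' = log (N+1)`, `M = N²` -/
private lemma FN_num (c₀ L L' M X m₁ m₂ S₁ S₂ G E : ℝ) (hc₀ : 0 < c₀) (hL : 1 ≤ L) (hL' : L' ≤ 51 / 50 * L)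
    (hL'0 : 0 ≤ L') (hM : 0 ≤ M) (hX : M / 4 ≤ X) (hG : 0 ≤ G) (hE0 : 0 ≤ E)
    (hm₂ : 0 ≤ m₂) (hm : c₀ / L ≤ m₁ - 445 / 1000 * m₂)
    (hS₁ : 1 / 8 * X * m₁ - c₀ / 320 * M / L ≤ S₁)
    (hS₂ : S₂ ≤ 1 / 8 * (435 / 1000) * (X / (3 * L)) * m₂ + c₀ / 320 * M / L ^ 2)
    (hW : S₁ - 3 * L' * S₂ ≤ 3 * L' * (G + E)) (hE : L ^ 2 * E ≤ c₀ / 400 * M) :
    c₀ / 400 * M / L ^ 2 ≤ G := by
  have hLpos : 0 < L := by linarith
  have hX0 : 0 ≤ X := by linarith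
  -- upper bound of the switched part
  have a1 : 3 * L' * S₂ ≤ X / 8 * (445 / 1000) * m₂ + 3 * (51 / 50) * (c₀ / 320) * M / L := by
    have b1 : 3 * L' * S₂ ≤
        3 * L' * (1 / 8 * (435 / 1000) * (X / (3 * L)) * m₂ + c₀ / 320 * M / L ^ 2) :=
      mul_le_mul_of_nonneg_left hS₂ (by linarith)
    have b2 : 0 ≤ 1 / 8 * (435 / 1000) * (X / (3 * L)) * m₂ + c₀ / 320 * M / L ^ 2 := by positivity
    have b3 : 3 * L' * (1 / 8 * (435 / 1000) * (X / (3 * L)) * m₂ + c₀ / 320 * M / L ^ 2) ≤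
        3 * (51 / 50 * L) * (1 / 8 * (435 / 1000) * (X / (3 * L)) * m₂ + c₀ / 320 * M / L ^ 2) :=
      mul_le_mul_of_nonneg_right (by linarith) b2
    have b4 : 3 * (51 / 50 * L) * (1 / 8 * (435 / 1000) * (X / (3 * L)) * m₂ + c₀ / 320 * M / L ^ 2) =
        X / 8 * (51 / 50 * (435 / 1000)) * m₂ + 3 * (51 / 50) * (c₀ / 320) * M / L := by
      field_simp
    have b5 : X / 8 * (51 / 50 * (435 / 1000)) * m₂ ≤ X / 8 * (445 / 1000) * m₂ := by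
      have : 0 ≤ X * m₂ := mul_nonneg hX0 hm₂
      nlinarith
    linarith
  -- lower bound of the left side
  have a2 : X / 8 * (c₀ / L) ≤ X / 8 * (m₁ - 445 / 1000 * m₂) :=
    mul_le_mul_of_nonneg_left hm (by linarith)
  have a3 : M / 4 / 8 * (c₀ / L) ≤ X / 8 * (c₀ / L) :=
    mul_le_mul_of_nonneg_right (by linarith) (by positivity)
  have a4 : c₀ / 64 * M / L ≤ 3 * L' * (G + E) := by
    have e1 : M / 4 / 8 * (c₀ / L) = c₀ / 32 * (M / L) := by ring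
    have e2 : c₀ / 320 * M / L = c₀ / 320 * (M / L) := by ring
    have e3 : 3 * (51 / 50) * (c₀ / 320) * M / L = 3 * (51 / 50) * (c₀ / 320) * (M / L) := by ring
    have e4 : c₀ / 64 * M / L = c₀ / 64 * (M / L) := by ring
    have e5 : 0 ≤ c₀ * (M / L) := by positivity
    rw [e1] at a3
    rw [e2] at hS₁
    rw [e3] at a1
    rw [e4]
    nlinarith
  have a5 : 3 * L' * (G + E) ≤ 3 * (51 / 50 * L) * (G + E) :=
    mul_le_mul_of_nonneg_right (by linarith) (by linarith)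
  have a6 : c₀ / 64 * M ≤ 3 * (51 / 50) * (L ^ 2 * (G + E)) := by
    have e1 : c₀ / 64 * M / L ≤ 3 * (51 / 50 * L) * (G + E) := a4.trans a5
    rw [div_le_iff₀ hLpos] at e1
    calc c₀ / 64 * M ≤ 3 * (51 / 50 * L) * (G + E) * L := e1
      _ = 3 * (51 / 50) * (L ^ 2 * (G + E)) := by ring
  have a7 : c₀ / 200 * M ≤ L ^ 2 * (G + E) := by
    have : 0 ≤ c₀ * M := by positivity
    nlinarith
  rw [div_le_iff₀ (by positivity)]
  nlinarith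

theorem FN (h1 : PRM_stmt) (h2 : SLW_stmt) (h3 : SWT_stmt) (h4 : WND_stmt) (h5 : XNB_stmt) :
    FN_stmt := by
  obtain ⟨c₀, K, hc₀, hK, N₁, hSLW⟩ := h2
  have hKK : K ≤ max K 8 := le_max_left _ _
  have h8K : (8 : ℝ) ≤ max K 8 := le_max_right _ _
  have hK1 : 0 < max K 8 := lt_of_lt_of_le hK hKK
  have he : 0 < c₀ / 320 := by positivity
  obtain ⟨N₂, hPRM⟩ := h1 (1 / 2000) (c₀ / 320) (max K 8) (by norm_num) he hK1
  obtain ⟨N₃, hSWT⟩ := h3 (c₀ / 320) (max K 8) he hK1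
  obtain ⟨N₄, hWND⟩ := h4
  obtain ⟨N₅, hXNB⟩ := h5
  obtain ⟨N₆, hN₆⟩ := FN_ev (c₀ / 400) (by positivity)
  refine ⟨c₀ / 400, by positivity, N₁ + N₂ + N₃ + N₄ + N₅ + N₆, fun N hN => ?_⟩
  obtain ⟨l₁, l', l₂, A1, A', A2, w1, w', w2, m', m2, m2', mm⟩ := hSLW N (by omega)
  obtain ⟨L1, L2, L3⟩ := hN₆ N (by omega)
  have hLpos : 0 < Real.log (N : ℝ) := by linarith
  have hdiv : K / Real.log (N : ℝ) ≤ max K 8 / Real.log (N : ℝ) :=
    div_le_div_of_nonneg_right hKK hLpos.le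
  have P := hPRM N (by omega) l₁ l' (FN_adm h8K A1) (FN_adm h8K A') w' (m'.trans hdiv)
  have w20 : ∀ a : ℕ, 1 ≤ a → 0 ≤ wt l₂ a := by
    intro a ha
    refine le_trans ?_ (w2 a ha)
    split_ifs
    · exact le_rfl
    · exact zero_le_one
  have S := hSWT N (by omega) l₂ (FN_adm h8K A2) w20 m2 (m2'.trans hdiv)
  have W := hWND N (by omega) l₁ l₂ (fun a ha => by
    unfold psi0
    exact w1 a ha) w2
  have X := (hXNB N (by omega)).1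
  have hN1 : (0 : ℝ) ≤ Real.log ((N : ℝ) + 1) := Real.log_nonneg (by
    have : (0 : ℝ) ≤ (N : ℝ) := Nat.cast_nonneg N
    linarith)
  exact FN_num c₀ (Real.log N) (Real.log (N + 1)) ((N : ℝ) ^ 2) (XN N) (mt (QL N) l₁) (mt (QL N) l₂)
    _ _ (#(G4 N) : ℝ) ((N : ℝ) ^ (39 / 20 : ℝ)) hc₀ L1 L2 hN1 (by positivity) X (Nat.cast_nonneg _)
    (Real.rpow_nonneg (Nat.cast_nonneg _) _) m2 mm P S W L3

end Pool.Agent.EC
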