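import Pool.Agent.helper26.EC.SpecE
import Pool.Agent.helper95.CHS.MN

/-! # ec:UPS -/

set_option autoImplicit false

namespace Pool.Agent.EC

open Finset ArithmeticFunction
open Pool.Agent.CH (Win rgh dl eU Mo ClP ClB)
open Pool.Agent.CHS (PB WUp)

private theorem UPS_P0 (hPA : Pool.Agent.CHS.PA_stmt) {x : ℝ} {p : ℕ} (hp : p ∈ CHS.P0 x) :
    p.Prime ∧ 7 ≤ p ∧ Real.log p < x := by
  unfold CHS.P0 at hp
  rw [hPA.1] at hp
  refine ⟨hp.1, ?_, hp.2.2⟩
  have h1 : (0 : ℝ) < p := by exact_mod_cast hp.1.pos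
  have h2 : (7 : ℝ) ≤ p := (Real.log_le_log_iff (by norm_num) h1).1 hp.2.1
  exact_mod_cast h2

private theorem UPS_fac (hPA : Pool.Agent.CHS.PA_stmt) {x : ℝ} {p : ℕ} (hp : p ∈ CHS.P0 x) :
    0 < 1 - 1 / ((p : ℝ) - 1) ∧ 1 - 1 / ((p : ℝ) - 1) ≤ 1 := by
  have h := UPS_P0 hPA hp
  have h2 : (7 : ℝ) ≤ p := by exact_mod_cast h.2.1
  have h3 : 0 < 1 / ((p : ℝ) - 1) := by
    apply div_pos one_pos
    linarith
  have h4 : 1 / ((p : ℝ) - 1) < 1 := by
    rw [div_lt_one (by linarith)]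
    linarith
  exact ⟨by linarith, by linarith⟩

private theorem UPS_V (hPA : Pool.Agent.CHS.PA_stmt) (x : ℝ) :
    0 < CHS.V (CHS.P0 x) ∧ CHS.V (CHS.P0 x) ≤ 1 := by
  unfold CHS.V
  exact ⟨Finset.prod_pos fun p hp => (UPS_fac hPA hp).1,
    Finset.prod_le_one (fun p hp => (UPS_fac hPA hp).1.le) fun p hp => (UPS_fac hPA hp).2⟩

private theorem UPS_prod (hPA : Pool.Agent.CHS.PA_stmt) {x y : ℝ} (hxy : x ≤ y) :
    ∏ q ∈ CHS.P0 x, (q : ℝ) ≤ ∏ q ∈ CHS.P0 y, (q : ℝ) := by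
  have hsub : CHS.P0 x ⊆ CHS.P0 y := by
    intro p hp
    unfold CHS.P0 at hp ⊢
    rw [hPA.1] at hp ⊢
    exact ⟨hp.1, hp.2.1, hp.2.2.trans_le hxy⟩
  apply Finset.prod_le_prod_of_subset_of_one_le hsub
  · intro p _
    exact Nat.cast_nonneg p
  · intro p hp _
    have h := (UPS_P0 hPA hp).2.1
    have h2 : (7 : ℝ) ≤ p := by exact_mod_cast h
    linarith

private theorem UPS_Vle (hPA : Pool.Agent.CHS.PA_stmt) {x h : ℝ} (hx : 2 ≤ x) :
    CHS.V (PB x h) ≤ Real.exp (-CHS.sig x h) := by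
  unfold CHS.V CHS.sig
  rw [← Finset.sum_neg_distrib, Real.exp_sum]
  apply Finset.prod_le_prod
  · intro p hp
    have h1 := ((hPA.2.2.1 x h hx).2.2.2 p hp).2.2
    linarith
  · intro p _
    exact Real.one_sub_le_exp_neg _

/-- **UPS** -/
theorem UPS (hPA : Pool.Agent.CHS.PA_stmt) (hSL : Pool.Agent.CHS.SL_stmt) (hFLM : FLM_stmt) :
    UPS_stmt := by
  obtain ⟨h₀, hF⟩ := hFLM
  obtain ⟨Cs, hCs, hS⟩ := hSL
  have hMN := CHS.MN hPA
  obtain ⟨K, hK⟩ : ∃ K : ℝ, K = ∏ q ∈ CHS.P0 (4 * 10 ^ 7), (q : ℝ) := ⟨_, rfl⟩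
  have hKpos : 0 < K := by
    rw [hK]
    apply Finset.prod_pos
    intro q hq
    exact_mod_cast (UPS_P0 hPA hq).1.pos
  obtain ⟨Lm, hLm⟩ : ∃ Lm : ℝ, Lm = 20 * max (max h₀ (4 * 10 ^ 7)) (Real.log (K + 1)) := ⟨_, rfl⟩
  refine ⟨2 * (4 * 10 ^ 7 * 20 * Real.exp Cs), max 2 (Real.exp Lm), by positivity, le_max_left _ _, ?_⟩
  intro z hz
  have hz2 : 2 ≤ z := (le_max_left _ _).trans hz
  have hzL : Real.exp Lm ≤ z := (le_max_right _ _).trans hz
  have hzpos : 0 < z := by linarith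
  obtain ⟨h, hh⟩ : ∃ h : ℝ, h = Real.log z / 20 := ⟨_, rfl⟩
  have hlz : Real.log z = 20 * h := by rw [hh]; ring
  have hLz : Lm ≤ Real.log z := (Real.le_log_iff_exp_le hzpos).2 hzL
  have hmax : max (max h₀ (4 * 10 ^ 7)) (Real.log (K + 1)) ≤ h := by
    rw [hLm, hlz] at hLz
    linarith
  have hh0 : h₀ ≤ h := ((le_max_left _ _).trans (le_max_left _ _)).trans hmax
  have hh1 : (4 : ℝ) * 10 ^ 7 ≤ h := ((le_max_right _ _).trans (le_max_left _ _)).trans hmax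
  have hh2 : Real.log (K + 1) ≤ h := (le_max_right _ _).trans hmax
  have hhpos : 0 < h := by linarith
  obtain ⟨x, hx, hx', _, hWU⟩ := hF h hh0
  have hx2 : 2 ≤ x := by linarith
  have hxh : x ≤ h := by linarith
  have hxpos : 0 < x := by linarith
  obtain ⟨c, hc1, hc2, hc3, hc4⟩ := hWU
  obtain ⟨l, m1, m2, m3, m4, m5⟩ := hMN x h (19 * h) c hx2 hxh hc1 hc2
  have hexp : Real.exp h * Real.exp (19 * h) = z := by
    rw [← Real.exp_add, ← Real.exp_log hzpos, hlz]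
    congr 1
    ring
  have hlev1 : (∏ q ∈ CHS.P0 x, (q : ℝ)) * Real.exp (19 * h) + 1 ≤ z := by
    have h4 := UPS_prod hPA hx'
    rw [← hK] at h4
    have h5 : K + 1 ≤ Real.exp h := (Real.log_le_iff_le_exp (by linarith)).1 hh2
    have h6 : 1 ≤ Real.exp (19 * h) := Real.one_le_exp (by positivity)
    have h8 := mul_le_mul_of_nonneg_right h4 (Real.exp_pos (19 * h)).le
    have h9 := mul_le_mul_of_nonneg_right h5 (Real.exp_pos (19 * h)).le
    rw [add_mul, one_mul, hexp] at h9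
    linarith
  have hlev2 : (∏ q ∈ CHS.P0 x, (q : ℝ)) * Real.exp (19 * h) ≤ (⌊z⌋₊ : ℕ) := by
    have h7 := Nat.sub_one_lt_floor z
    linarith
  have hval : ∀ a : ℕ, (if ((PB x h).filter fun p => p ∣ a) = ∅ then (1 : ℝ) else 0) ≤
      ∑ F ∈ ((PB x h).filter fun p => p ∣ a).powerset, c F :=
    fun a => hc3 _ (Finset.filter_subset _ _)
  refine ⟨l, ⟨m1, ?_⟩, ?_, ?_, ?_⟩
  · intro m hm
    have := m2 m hm
    exact ⟨this.1, this.2.1, by linarith [this.2.2]⟩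
  · intro a ha
    show 0 ≤ ∑ m ∈ a.divisors, l m
    by_cases hsm : ∃ p : ℕ, p.Prime ∧ 7 ≤ p ∧ Real.log p < x ∧ p ∣ a
    · obtain ⟨p, hp, hp7, hpx, hpa⟩ := hsm
      rw [m4 a p ha hp hp7 hpx hpa]
    · rw [m3 a ha fun p hp hp7 hpx hpa => hsm ⟨p, hp, hp7, hpx, hpa⟩]
      refine le_trans ?_ (hval a)
      split_ifs <;> norm_num
  · intro a ha
    have ha0 : 0 < a := Nat.pos_of_ne_zero ha.1
    have hbig : ∀ p : ℕ, p.Prime → p ∣ a → h ≤ Real.log p := by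
      intro p hp hpa
      have h10 := ha.2 p hp hpa
      have h11 := Real.log_lt_log hzpos h10
      linarith
    show 1 ≤ ∑ m ∈ a.divisors, l m
    rw [m3 a ha0 fun p hp _ hpx hpa => by
      have := hbig p hp hpa
      linarith]
    refine le_trans ?_ (hval a)
    rw [if_pos]
    rw [Finset.eq_empty_iff_forall_notMem]
    intro q hq
    rw [Finset.mem_filter, hPA.1] at hq
    have := hbig q hq.1.1 hq.2
    linarith [hq.1.2.2]
  · have h5 : mt z l = CHS.V (CHS.P0 x) * ∑ F ∈ (PB x h).powerset, c F * CHS.g F := by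
      unfold mt
      exact m5 _ hlev2
    have hV := UPS_V hPA x
    have hVP := (hPA.2.2.1 x h hx2).1
    have e0 : ∑ F ∈ (PB x h).powerset, c F * CHS.g F ≤ 2 * CHS.V (PB x h) := by
      refine hc4.trans ?_
      have : (600 : ℝ) / 3 ^ 19 ≤ 1 := by norm_num
      nlinarith
    have e1 := UPS_Vle hPA (h := h) hx2
    have e2 := hS x h hx2 hxh
    have e3 : Cs / x ≤ Cs := by
      rw [div_le_iff₀ hxpos]
      nlinarith
    have e4 : Real.exp (-CHS.sig x h) ≤ Real.exp (-Real.log (h / x) + Cs) := by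
      apply Real.exp_le_exp.2
      linarith
    have e5 : Real.exp (-Real.log (h / x) + Cs) = x / h * Real.exp Cs := by
      rw [Real.exp_add, Real.exp_neg, Real.exp_log (div_pos hhpos hxpos), inv_div]
    have e6 : x / h * Real.exp Cs ≤ 4 * 10 ^ 7 * 20 * Real.exp Cs / Real.log z := by
      have e7 : x / h * Real.exp Cs = x * 20 * Real.exp Cs / Real.log z := by
        rw [hlz]
        field_simp
      rw [e7]
      apply div_le_div_of_nonneg_right _ (by rw [hlz]; positivity)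
      have := Real.exp_pos Cs
      nlinarith
    have e8 : 2 * CHS.V (PB x h) ≤ 2 * (4 * 10 ^ 7 * 20 * Real.exp Cs) / Real.log z := by
      rw [mul_div_assoc]
      linarith
    rw [h5]
    calc CHS.V (CHS.P0 x) * ∑ F ∈ (PB x h).powerset, c F * CHS.g F
        ≤ CHS.V (CHS.P0 x) * (2 * CHS.V (PB x h)) := mul_le_mul_of_nonneg_left e0 hV.1.le
      _ ≤ 1 * (2 * CHS.V (PB x h)) := mul_le_mul_of_nonneg_right hV.2 (by linarith)
      _ ≤ _ := by rw [one_mul]; exact e8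

end Pool.Agent.EC
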